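import Pool.Agent.W788.NV.Stm

set_option autoImplicit false
set_option linter.all false

namespace Pool.Agent.W918.NV

open Finset
open Pool.Agent.W788.NV

theorem mgen_mulVec {S ι : Type} [Fintype S] [DecidableEq S] [Fintype ι] (r : ι → ℝ) (m : ι → S → S)
    (G : S → ℝ) (x : S) : Matrix.mulVec (mgen r m) G x = gf r m G x := by
  simp only [Matrix.mulVec, dotProduct, mgen, gf]
  simp only [Finset.sum_mul]
  rw [Finset.sum_comm]
  apply Finset.sum_congr rfl
  intro e _
  have h1 : ∀ y : S, r e * ((if y = m e x then (1:ℝ) else 0) - (if y = x then 1 else 0)) * G y =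
      r e * ((if y = m e x then G y else 0) - (if y = x then G y else 0)) := by
    intro y
    split_ifs <;> ring
  simp only [h1]
  rw [← Finset.mul_sum, Finset.sum_sub_distrib]
  simp

theorem hasSum_mulVec {S : Type} [Fintype S] [DecidableEq S] (A : Matrix S S ℝ) (G : S → ℝ) (x : S) :
    HasSum (fun n : ℕ => (((n.factorial : ℝ)⁻¹) • A ^ n).mulVec G x) ((NormedSpace.exp A).mulVec G x) := by
  letI : NormedRing (Matrix S S ℝ) := Matrix.linftyOpNormedRing
  letI : NormedAlgebra ℝ (Matrix S S ℝ) := Matrix.linftyOpNormedAlgebra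
  have h := NormedSpace.exp_series_hasSum_exp' (𝕂 := ℝ) A
  let φ : Matrix S S ℝ →+ ℝ :=
    { toFun := fun M => M.mulVec G x
      map_zero' := by simp
      map_add' := by
        intro M N
        simp [Matrix.add_mulVec] }
  have hφ : Continuous φ := by
    show Continuous (fun M : Matrix S S ℝ => M.mulVec G x)
    simp only [Matrix.mulVec, dotProduct]
    fun_prop
  exact h.map φ hφ

theorem in_free : S_IN := by
  intro S S' ι _ _ _ _ _ r m m' π hπ F x t
  have hstep : ∀ (G : S' → ℝ) (y : S), Matrix.mulVec (t • mgen r m) (fun z => G (π z)) y =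
      Matrix.mulVec (t • mgen r m') G (π y) := by
    intro G y
    rw [Matrix.smul_mulVec, Matrix.smul_mulVec]
    simp only [Pi.smul_apply]
    rw [mgen_mulVec, mgen_mulVec]
    simp only [gf, hπ]
  have hpow : ∀ (n : ℕ) (y : S), Matrix.mulVec ((t • mgen r m) ^ n) (fun z => F (π z)) y =
      Matrix.mulVec ((t • mgen r m') ^ n) F (π y) := by
    intro n
    induction n with
    | zero =>
      intro y
      simp
    | succ n ih =>
      intro y
      rw [pow_succ', pow_succ', ← Matrix.mulVec_mulVec, ← Matrix.mulVec_mulVec, ← hstep]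
      have : Matrix.mulVec ((t • mgen r m) ^ n) (fun z => F (π z)) =
          fun z => Matrix.mulVec ((t • mgen r m') ^ n) F (π z) := funext ih
      rw [this]
  have h1 := hasSum_mulVec (t • mgen r m) (fun z => F (π z)) x
  have h2 := hasSum_mulVec (t • mgen r m') F (π x)
  have h3 : (fun n : ℕ => (((n.factorial : ℝ)⁻¹) • (t • mgen r m) ^ n).mulVec (fun z => F (π z)) x) =
      (fun n : ℕ => (((n.factorial : ℝ)⁻¹) • (t • mgen r m') ^ n).mulVec F (π x)) := by
    funext n
    rw [Matrix.smul_mulVec, Matrix.smul_mulVec]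
    simp only [Pi.smul_apply]
    rw [hpow]
  rw [h3] at h1
  exact h1.unique h2

theorem in_ (h : MK) : S_IN := in_free

end Pool.Agent.W918.NV
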